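import Pool.Agent.Lib.MP_60fb2a_nt.An.Tws

/-!
MP_60fb2a_nt: bounded averages for one model imply bounded averages for another one.
-/

set_option autoImplicit false

namespace Pool.Agent.Lib.NagA

open Polynomial Finset Classical

theorem Bgc_chi_le (p : ℕ) [Fact p.Prime] (x : ZMod p) : |quadraticChar (ZMod p) x| ≤ 1 := by
  by_cases hx : x = 0
  · subst hx
    simp
  · rcases quadraticChar_dichotomy hx with h | h <;> rw [h] <;> norm_num

theorem Bgc_U_le (A B : ℤ[X]) (p : ℕ) [Fact p.Prime] (t : ℕ) : |Tws_U A B p t| ≤ p := by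
  unfold Tws_U
  refine le_trans (Finset.abs_sum_le_sum_abs _ _) ?_
  refine le_trans (Finset.sum_le_sum fun x _ => Bgc_chi_le p _) ?_
  rw [Finset.sum_const, Finset.card_univ, ZMod.card]
  simp

theorem Bgc_U_eq (A B s : ℤ[X]) (p : ℕ) [Fact p.Prime] (t : ℕ) (hs : ((s.eval (t : ℤ) : ℤ) : ZMod p) ≠ 0) :
    Tws_U (A * s ^ 4) (B * s ^ 6) p t = Tws_U A B p t := by
  unfold Tws_U
  set c : ZMod p := ((s.eval (t : ℤ) : ℤ) : ZMod p) with hc
  have hc2 : c ^ 2 ≠ 0 := pow_ne_zero _ hs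
  rw [← Equiv.sum_comp (Equiv.mulLeft₀ (c ^ 2) hc2)]
  refine Finset.sum_congr rfl fun x _ => ?_
  have h1 : (Equiv.mulLeft₀ (c ^ 2) hc2 x) = c ^ 2 * x := rfl
  rw [h1]
  simp only [eval_mul, eval_pow]
  push_cast
  rw [← hc]
  have h2 : (c ^ 2 * x) ^ 3 + ((A.eval (t : ℤ) : ℤ) : ZMod p) * c ^ 4 * (c ^ 2 * x) +
      ((B.eval (t : ℤ) : ℤ) : ZMod p) * c ^ 6 =
      (c ^ 3) ^ 2 * (x ^ 3 + ((A.eval (t : ℤ) : ℤ) : ZMod p) * x + ((B.eval (t : ℤ) : ℤ) : ZMod p)) := by
    ring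
  rw [h2, map_mul, map_pow]
  have h3 : quadraticChar (ZMod p) (c ^ 3) ^ 2 = 1 := quadraticChar_sq_one (pow_ne_zero _ hs)
  rw [h3, one_mul]

theorem Bgc_av_le (A B : ℤ[X]) (p : ℕ) [Fact p.Prime] (hp : p ≠ 2) : |Av A B p| ≤ p := by
  rw [Tws_av A B p hp]
  have hp0 : (0 : ℝ) < p := by exact_mod_cast (Fact.out : p.Prime).pos
  rw [abs_mul, abs_neg, abs_of_pos (by positivity : (0 : ℝ) < 1 / p)]
  have h1 : |((∑ t ∈ Finset.range p, Tws_U A B p t : ℤ) : ℝ)| ≤ (p : ℝ) * p := by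
    have h2 : |∑ t ∈ Finset.range p, Tws_U A B p t| ≤ (p : ℤ) * p := by
      refine le_trans (Finset.abs_sum_le_sum_abs _ _) ?_
      refine le_trans (Finset.sum_le_sum fun t _ => Bgc_U_le A B p t) ?_
      rw [Finset.sum_const, Finset.card_range]
      simp
    exact_mod_cast h2
  calc 1 / (p : ℝ) * |((∑ t ∈ Finset.range p, Tws_U A B p t : ℤ) : ℝ)| ≤ 1 / (p : ℝ) * ((p : ℝ) * p) :=
        mul_le_mul_of_nonneg_left h1 (by positivity)
    _ = p := by field_simp

theorem Bgc_roots (s : ℤ[X]) (p : ℕ) [Fact p.Prime] (hs : s.map (Int.castRingHom (ZMod p)) ≠ 0) :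
    ((Finset.range p).filter (fun t : ℕ => ((s.eval (t : ℤ) : ℤ) : ZMod p) = 0)).card ≤ s.natDegree := by
  set f := s.map (Int.castRingHom (ZMod p)) with hf
  have h1 : ((Finset.range p).filter (fun t : ℕ => ((s.eval (t : ℤ) : ℤ) : ZMod p) = 0)).card ≤
      f.roots.toFinset.card := by
    refine Finset.card_le_card_of_injOn (fun t : ℕ => (t : ZMod p)) ?_ ?_
    · intro t ht
      rw [Finset.mem_coe, Finset.mem_filter] at ht
      rw [Finset.mem_coe, Multiset.mem_toFinset, Polynomial.mem_roots hs, Polynomial.IsRoot.def]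
      have h := Polynomial.eval_intCast_map (Int.castRingHom (ZMod p)) s (t : ℤ)
      rw [Int.cast_natCast] at h
      rw [h]
      exact ht.2
    · intro x hx y hy h
      rw [Finset.mem_coe, Finset.mem_filter, Finset.mem_range] at hx hy
      simp only at h
      rw [ZMod.natCast_eq_natCast_iff'] at h
      rwa [Nat.mod_eq_of_lt hx.1, Nat.mod_eq_of_lt hy.1] at h
  refine le_trans h1 (le_trans (Multiset.toFinset_card_le _) ?_)
  refine le_trans (Polynomial.card_roots' _) ?_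
  exact Polynomial.natDegree_map_le

theorem tBgc (A B s : ℤ[X]) (hs : s ≠ 0) (h : ∃ K : ℝ, ∀ p : ℕ, p.Prime → |Av (A * s ^ 4) (B * s ^ 6) p| ≤ K) :
    ∃ K : ℝ, ∀ p : ℕ, p.Prime → |Av A B p| ≤ K := by
  obtain ⟨K, hK⟩ := h
  have hK0 : 0 ≤ K := le_trans (abs_nonneg _) (hK 2 Nat.prime_two)
  have hl : s.leadingCoeff ≠ 0 := Polynomial.leadingCoeff_ne_zero.2 hs
  refine ⟨K + 2 * (s.natDegree : ℝ) + (s.leadingCoeff.natAbs : ℝ) + 2, fun p hp => ?_⟩
  have h0 : (0 : ℝ) ≤ (s.leadingCoeff.natAbs : ℝ) := Nat.cast_nonneg _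
  have h0' : (0 : ℝ) ≤ (s.natDegree : ℝ) := Nat.cast_nonneg _
  by_cases hp2 : p = 2
  · subst hp2
    have := Nss_av2 A B
    linarith
  · have : Fact p.Prime := ⟨hp⟩
    have hp0 : (0 : ℝ) < p := by exact_mod_cast hp.pos
    by_cases hz : s.map (Int.castRingHom (ZMod p)) = 0
    · have h1 : ((s.leadingCoeff : ℤ) : ZMod p) = 0 := by
        have h2 : (s.map (Int.castRingHom (ZMod p))).coeff s.natDegree = 0 := by rw [hz]; simp
        rw [Polynomial.coeff_map] at h2
        exact h2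
      rw [ZMod.intCast_zmod_eq_zero_iff_dvd] at h1
      have h2 : p ≤ s.leadingCoeff.natAbs := by
        have h3 : p ∣ s.leadingCoeff.natAbs := Int.natCast_dvd.1 h1
        exact Nat.le_of_dvd (Int.natAbs_pos.2 hl) h3
      have h3 : (p : ℝ) ≤ (s.leadingCoeff.natAbs : ℝ) := by exact_mod_cast h2
      have := Bgc_av_le A B p hp2
      linarith
    · have h1 : |∑ t ∈ Finset.range p, Tws_U A B p t - ∑ t ∈ Finset.range p, Tws_U (A * s ^ 4) (B * s ^ 6) p t| ≤
          (s.natDegree : ℤ) * (2 * p) := by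
        rw [← Finset.sum_sub_distrib]
        refine le_trans (Finset.abs_sum_le_sum_abs _ _) ?_
        have h2 : ∀ t ∈ Finset.range p, |Tws_U A B p t - Tws_U (A * s ^ 4) (B * s ^ 6) p t| ≤
            if ((s.eval (t : ℤ) : ℤ) : ZMod p) = 0 then 2 * (p : ℤ) else 0 := by
          intro t _
          split_ifs with h3
          · refine le_trans (abs_sub _ _) ?_
            have := Bgc_U_le A B p t
            have := Bgc_U_le (A * s ^ 4) (B * s ^ 6) p t
            linarith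
          · rw [Bgc_U_eq A B s p t h3]
            simp
        refine le_trans (Finset.sum_le_sum h2) ?_
        rw [← Finset.sum_filter, Finset.sum_const, nsmul_eq_mul]
        exact mul_le_mul_of_nonneg_right (by exact_mod_cast Bgc_roots s p hz) (by positivity)
      have h2 : |Av A B p - Av (A * s ^ 4) (B * s ^ 6) p| ≤ 2 * (s.natDegree : ℝ) := by
        rw [Tws_av A B p hp2, Tws_av _ _ p hp2, ← mul_sub, ← Int.cast_sub, abs_mul, abs_neg,
          abs_of_pos (by positivity : (0 : ℝ) < 1 / p)]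
        have h3 : |((∑ t ∈ Finset.range p, Tws_U A B p t -
            ∑ t ∈ Finset.range p, Tws_U (A * s ^ 4) (B * s ^ 6) p t : ℤ) : ℝ)| ≤ (s.natDegree : ℝ) * (2 * p) := by
          exact_mod_cast h1
        calc 1 / (p : ℝ) * |((∑ t ∈ Finset.range p, Tws_U A B p t -
            ∑ t ∈ Finset.range p, Tws_U (A * s ^ 4) (B * s ^ 6) p t : ℤ) : ℝ)| ≤
              1 / (p : ℝ) * ((s.natDegree : ℝ) * (2 * p)) := mul_le_mul_of_nonneg_left h3 (by positivity)
          _ = 2 * (s.natDegree : ℝ) := by field_simp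
      have h3 := hK p hp
      have h4 : |Av A B p| ≤ |Av A B p - Av (A * s ^ 4) (B * s ^ 6) p| + |Av (A * s ^ 4) (B * s ^ 6) p| := by
        have := abs_add_le (Av A B p - Av (A * s ^ 4) (B * s ^ 6) p) (Av (A * s ^ 4) (B * s ^ 6) p)
        rwa [sub_add_cancel] at this
      linarith

end Pool.Agent.Lib.NagA
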