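import Pool.Agent.Lib.MP_60fb2a_nt.G.Defs

set_option autoImplicit false

namespace Pool.Agent.Lib.NagA

open Polynomial Finset Classical

/-- integer polynomials as rational functions -/
noncomputable def zr (f : ℤ[X]) : RatFunc ℚ :=
  algebraMap (Polynomial ℚ) (RatFunc ℚ) (f.map (Int.castRingHom ℚ))

theorem zr_mul (f g : ℤ[X]) : zr (f * g) = zr f * zr g := by
  unfold zr
  rw [Polynomial.map_mul, map_mul]

theorem zr_pow (f : ℤ[X]) (n : ℕ) : zr (f ^ n) = zr f ^ n := by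
  unfold zr
  rw [Polynomial.map_pow, map_pow]

theorem zr_inj {f g : ℤ[X]} (h : zr f = zr g) : f = g := by
  unfold zr at h
  have h1 := IsFractionRing.injective (Polynomial ℚ) (RatFunc ℚ) h
  exact Polynomial.map_injective _ (RingHom.injective_int _) h1

theorem zr_CC (c : ℚ) : algebraMap (Polynomial ℚ) (RatFunc ℚ) (C c) = algebraMap ℚ (RatFunc ℚ) c :=
  (IsScalarTower.algebraMap_apply ℚ (Polynomial ℚ) (RatFunc ℚ) c).symm

theorem zr_C (k : ℤ) : zr (C k) = algebraMap ℚ (RatFunc ℚ) (k : ℚ) := by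
  unfold zr
  rw [Polynomial.map_C]
  exact zr_CC _

theorem zr_zero : zr 0 = 0 := by
  unfold zr
  simp

/-- every rational function is a quotient of integer polynomials -/
theorem zr_div (u : RatFunc ℚ) : ∃ F G : ℤ[X], G ≠ 0 ∧ u * zr G = zr F := by
  have h1 : ∀ f : ℚ[X], ∃ (k : ℤ) (F : ℤ[X]), k ≠ 0 ∧ F.map (Int.castRingHom ℚ) = C (k : ℚ) * f := by
    intro f
    obtain ⟨⟨k, hk⟩, h⟩ := IsLocalization.exist_integer_multiples_of_finset (nonZeroDivisors ℤ)
      (f.support.image f.coeff)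
    have hk0 : k ≠ 0 := nonZeroDivisors.ne_zero hk
    have h2 : ∀ n, ∃ z : ℤ, (z : ℚ) = (k : ℚ) * f.coeff n := by
      intro n
      by_cases hn : n ∈ f.support
      · obtain ⟨z, hz⟩ := h (f.coeff n) (Finset.mem_image_of_mem _ hn)
        refine ⟨z, ?_⟩
        rw [show ((algebraMap ℤ ℚ) z) = (z : ℚ) from rfl] at hz
        rw [hz]
        simp [Algebra.smul_def]
      · refine ⟨0, ?_⟩
        rw [Polynomial.notMem_support_iff.1 hn]
        simp
    choose z hz using h2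
    refine ⟨k, ∑ n ∈ f.support, C (z n) * X ^ n, hk0, ?_⟩
    rw [Polynomial.map_sum]
    ext m
    rw [Polynomial.finsetSum_coeff]
    simp only [Polynomial.map_mul, Polynomial.map_C, Polynomial.map_pow, Polynomial.map_X,
      Polynomial.coeff_C_mul, Polynomial.coeff_X_pow]
    by_cases hm : m ∈ f.support
    · rw [Finset.sum_eq_single m]
      · simp [hz]
      · intro n _ hn
        simp [hn.symm]
      · intro h
        exact absurd hm h
    · rw [Polynomial.notMem_support_iff.1 hm, mul_zero]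
      refine Finset.sum_eq_zero fun n hn => ?_
      have : m ≠ n := fun h => hm (h ▸ hn)
      simp [this]
  obtain ⟨k1, F, hk1, hF⟩ := h1 u.num
  obtain ⟨k2, G, hk2, hG⟩ := h1 u.denom
  refine ⟨C k2 * F, C k1 * G, ?_, ?_⟩
  · intro h
    have h3 : (C k1 * G).map (Int.castRingHom ℚ) = 0 := by rw [h]; simp
    rw [Polynomial.map_mul, hG, Polynomial.map_C] at h3
    have h4 : (C ((k1 : ℤ) : ℚ) : ℚ[X]) ≠ 0 := by simpa using hk1
    have h5 : (C ((k2 : ℤ) : ℚ) : ℚ[X]) ≠ 0 := by simpa using hk2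
    have h6 := RatFunc.denom_ne_zero u
    rcases mul_eq_zero.1 h3 with h | h
    · exact h4 (by simpa using h)
    · rcases mul_eq_zero.1 h with h | h
      · exact h5 h
      · exact h6 h
  · have h3 : zr F = algebraMap (Polynomial ℚ) (RatFunc ℚ) (C (k1 : ℚ) * u.num) := by
      unfold zr
      rw [hF]
    have h4 : zr G = algebraMap (Polynomial ℚ) (RatFunc ℚ) (C (k2 : ℚ) * u.denom) := by
      unfold zr
      rw [hG]
    have h5 : u * algebraMap (Polynomial ℚ) (RatFunc ℚ) u.denom = algebraMap (Polynomial ℚ) (RatFunc ℚ) u.num := by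
      have h6 : algebraMap (Polynomial ℚ) (RatFunc ℚ) u.denom ≠ 0 :=
        RatFunc.algebraMap_ne_zero (RatFunc.denom_ne_zero u)
      have h7 := RatFunc.num_div_denom u
      rw [div_eq_iff h6] at h7
      exact h7.symm
    rw [zr_mul, zr_mul, h3, h4, map_mul, map_mul, ← h5, zr_C, zr_C]
    rw [zr_CC, zr_CC]
    ring

/-- an integral model `a D^2`, `b D^3` -/
theorem tRed (A B : ℤ[X]) (hd : 4 * A ^ 3 + 27 * B ^ 2 ≠ 0) (h : ConstTwist A B) (hs : ¬ Split A B) :
    ∃ (s D : ℤ[X]) (a b : ℤ), s ≠ 0 ∧ A * s ^ 4 = C a * D ^ 2 ∧ B * s ^ 6 = C b * D ^ 3 ∧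
      4 * a ^ 3 + 27 * b ^ 2 ≠ 0 ∧ NCS D := by
  obtain ⟨u, a, b, hA, hB⟩ := h
  have hA' : zr A = u ^ 2 * algebraMap ℚ (RatFunc ℚ) a := hA
  have hB' : zr B = u ^ 3 * algebraMap ℚ (RatFunc ℚ) b := hB
  obtain ⟨F, G, hG, hFG⟩ := zr_div u
  set k : ℤ := (a.den : ℤ) * (b.den : ℤ) with hk
  have hk0 : k ≠ 0 := by
    rw [hk]
    have := a.den_ne_zero
    have := b.den_ne_zero
    positivity
  set a' : ℤ := a.num * b.den * k with ha'
  set b' : ℤ := b.num * a.den * k ^ 2 with hb'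
  have ea : ((a' : ℤ) : ℚ) = a * (k : ℚ) ^ 2 := by
    have h1 : a * (a.den : ℚ) = a.num := Rat.mul_den_eq_num a
    rw [ha', hk]
    push_cast
    rw [← h1]
    ring
  have eb : ((b' : ℤ) : ℚ) = b * (k : ℚ) ^ 3 := by
    have h1 : b * (b.den : ℚ) = b.num := Rat.mul_den_eq_num b
    rw [hb', hk]
    push_cast
    rw [← h1]
    ring
  have hGz : zr G ≠ 0 := fun h => hG (zr_inj (by rw [h, zr_zero]))
  have hkz : algebraMap ℚ (RatFunc ℚ) (k : ℚ) ≠ 0 := by
    rw [map_ne_zero_iff _ (algebraMap ℚ (RatFunc ℚ)).injective]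
    exact_mod_cast hk0
  have e1 : A * (C k * G) ^ 4 = C a' * (C k * F * G) ^ 2 := by
    apply zr_inj
    simp only [zr_mul, zr_pow, zr_C]
    rw [ea, hA', ← hFG, map_mul, map_pow]
    ring
  have e2 : B * (C k * G) ^ 6 = C b' * (C k * F * G) ^ 3 := by
    apply zr_inj
    simp only [zr_mul, zr_pow, zr_C]
    rw [eb, hB', ← hFG, map_mul, map_pow]
    ring
  have hkC : (C k : ℤ[X]) ≠ 0 := by simpa using hk0
  refine ⟨C k * G, C k * F * G, a', b', mul_ne_zero hkC hG, e1, e2, ?_, ?_⟩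
  · intro h0
    apply hd
    have h1 : (4 * A ^ 3 + 27 * B ^ 2) * (C k * G) ^ 12 = C (4 * a' ^ 3 + 27 * b' ^ 2) * (C k * F * G) ^ 6 := by
      have h2 : (4 * A ^ 3 + 27 * B ^ 2) * (C k * G) ^ 12 =
          4 * (A * (C k * G) ^ 4) ^ 3 + 27 * (B * (C k * G) ^ 6) ^ 2 := by ring
      rw [h2, e1, e2]
      simp only [map_add, map_mul, map_pow]
      have h4 : (C (4 : ℤ) : ℤ[X]) = 4 := rfl
      have h5 : (C (27 : ℤ) : ℤ[X]) = 27 := rfl
      rw [h4, h5]
      ring
    rw [h0] at h1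
    simp only [map_zero, zero_mul] at h1
    rcases mul_eq_zero.1 h1 with h | h
    · exact h
    · exact absurd (pow_eq_zero_iff (by norm_num) |>.1 h) (mul_ne_zero hkC hG)
  · intro c g hg
    apply hs
    have hu0 : u ≠ 0 := by
      rintro rfl
      apply hd
      have h1 : A = 0 := zr_inj (by rw [hA', zr_zero]; ring)
      have h2 : B = 0 := zr_inj (by rw [hB', zr_zero]; ring)
      rw [h1, h2]
      ring
    have h1 : zr (C k * F * G) = algebraMap ℚ (RatFunc ℚ) c * (algebraMap (Polynomial ℚ) (RatFunc ℚ) g) ^ 2 := by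
      unfold zr
      rw [hg, map_mul, map_pow, zr_CC]
    rw [zr_mul, zr_mul, zr_C, ← hFG] at h1
    set g' := algebraMap (Polynomial ℚ) (RatFunc ℚ) g with hg'
    have h2 : u = algebraMap ℚ (RatFunc ℚ) (c / k) * (g' / zr G) ^ 2 := by
      rw [map_div₀]
      field_simp
      rw [← h1]
      ring
    have hg0 : g' / zr G ≠ 0 := by
      intro h0
      rw [h0] at h2
      apply hu0
      rw [h2]
      ring
    refine ⟨g' / zr G, hg0, a * (c / k) ^ 2, b * (c / k) ^ 3, ?_, ?_⟩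
    · rw [hA]
      nth_rewrite 1 [h2]
      rw [map_mul, map_pow]
      ring
    · rw [hB]
      nth_rewrite 1 [h2]
      rw [map_mul, map_pow]
      ring

end Pool.Agent.Lib.NagA
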