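import Pool.Agent.Lib.MP_60fb2a_nt.R.Spec
import Pool.Agent.Lib.MP_60fb2a_nt.G.Red

/-!
MP_60fb2a_nt: isomorphic models have the same rank.
-/

set_option autoImplicit false

namespace Pool.Agent.Lib.NagA

open Polynomial Finset Classical R

theorem Rks_iso (hG : R.S_Grp) (F : Type) [Field F] (A B s : F) (h2 : (2 : F) ≠ 0)
    (hd : 4 * A ^ 3 + 27 * B ^ 2 ≠ 0) (hs : s ≠ 0) : Nonempty (Pt A B ≃+ Pt (A * s ^ 4) (B * s ^ 6)) := by
  have hd' : 4 * (A * s ^ 4) ^ 3 + 27 * (B * s ^ 6) ^ 2 ≠ 0 := by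
    have : 4 * (A * s ^ 4) ^ 3 + 27 * (B * s ^ 6) ^ 2 = s ^ 12 * (4 * A ^ 3 + 27 * B ^ 2) := by ring
    rw [this]
    exact mul_ne_zero (pow_ne_zero _ hs) hd
  obtain ⟨g1, g2, g3, g4, g5, g6, g7, g8, g9⟩ := hG F A B h2 hd
  obtain ⟨k1, k2, k3, k4, k5, k6, k7, k8, k9⟩ := hG F (A * s ^ 4) (B * s ^ 6) h2 hd'
  have hex : ∀ P : Pt A B, ∃ Q : Pt (A * s ^ 4) (B * s ^ 6), (P = 0 → Q = 0) ∧
      ∀ x y : F, IsXY P x y → IsXY Q (s ^ 2 * x) (s ^ 3 * y) := by
    intro P
    rcases g1 P with h | ⟨x, y, h⟩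
    · refine ⟨0, fun _ => rfl, fun x y hxy => ?_⟩
      exact absurd h (g2 P x y hxy).1
    · obtain ⟨Q, hQ⟩ := k3 (s ^ 2 * x) (s ^ 3 * y) (by
        have h3 := (g2 P x y h).2
        calc (s ^ 3 * y) ^ 2 = s ^ 6 * y ^ 2 := by ring
          _ = s ^ 6 * (x ^ 3 + A * x + B) := by rw [h3]
          _ = _ := by ring)
      refine ⟨Q, fun h0 => absurd h0 (g2 P x y h).1, fun x' y' h' => ?_⟩
      obtain ⟨e1, e2⟩ := g5 P x y x' y' h h'
      rw [← e1, ← e2]
      exact hQ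
  choose φ hφ0 hφ using hex
  have hz : φ 0 = 0 := hφ0 0 rfl
  have hneg : ∀ P : Pt A B, φ (-P) = -φ P := by
    intro P
    rcases g1 P with h | ⟨x, y, h⟩
    · rw [h, neg_zero, hz, neg_zero]
    · have a1 := hφ (-P) x (-y) (g6 P x y h)
      have a2 := k6 _ _ _ (hφ P x y h)
      refine k4 _ _ _ _ a1 ?_
      have : s ^ 3 * -y = -(s ^ 3 * y) := by ring
      rw [this]
      exact a2
  have hadd : ∀ P Q : Pt A B, φ (P + Q) = φ P + φ Q := by
    intro P Q
    rcases g1 P with h | ⟨x, y, h⟩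
    · rw [h, zero_add, hz, zero_add]
    rcases g1 Q with h' | ⟨x', y', h'⟩
    · rw [h', add_zero, hz, add_zero]
    have hP := hφ P x y h
    have hQ := hφ Q x' y' h'
    by_cases hx : x = x'
    · have e1 := (g2 P x y h).2
      have e2 := (g2 Q x' y' h').2
      rw [← hx, ← e1] at e2
      rcases sq_eq_sq_iff_eq_or_eq_neg.1 e2 with h3 | h3
      · -- Q = P
        have hPQ : Q = P := by
          refine g4 Q P x' y' h' ?_
          rw [← hx, h3]
          exact h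
        rw [hPQ]
        by_cases hy : y = 0
        · rw [hy] at h hP
          rw [g7 P x h, hz]
          rw [mul_zero] at hP
          exact (k7 _ _ hP).symm
        · have b1 := g8 P x y ((3 * x ^ 2 + A) / (2 * y)) (((3 * x ^ 2 + A) / (2 * y)) ^ 2 - 2 * x) h hy
            (by field_simp) rfl
          set l := (3 * x ^ 2 + A) / (2 * y) with hl
          have hl2 : 2 * l * y = 3 * x ^ 2 + A := by
            rw [hl]
            field_simp
          have b2 := k8 _ (s ^ 2 * x) (s ^ 3 * y) (s * l) ((s * l) ^ 2 - 2 * (s ^ 2 * x)) hP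
            (mul_ne_zero (pow_ne_zero _ hs) hy) (by
              calc 2 * (s * l) * (s ^ 3 * y) = s ^ 4 * (2 * l * y) := by ring
                _ = s ^ 4 * (3 * x ^ 2 + A) := by rw [hl2]
                _ = _ := by ring) rfl
          have b3 := hφ _ _ _ b1
          refine k4 _ _ _ _ b3 ?_
          have c1 : s ^ 2 * (l ^ 2 - 2 * x) = (s * l) ^ 2 - 2 * (s ^ 2 * x) := by ring
          have c2 : s ^ 3 * (l * (x - (l ^ 2 - 2 * x)) - y) =
              s * l * (s ^ 2 * x - ((s * l) ^ 2 - 2 * (s ^ 2 * x))) - s ^ 3 * y := by ring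
          rw [c1, c2]
          exact b2
      · -- Q = -P
        have hPQ : Q = -P := by
          refine g4 Q (-P) x' y' h' ?_
          rw [← hx, h3]
          exact g6 P x y h
        rw [hPQ, hneg, add_neg_cancel, add_neg_cancel, hz]
    · have hx' : x - x' ≠ 0 := sub_ne_zero.2 hx
      have b1 := g9 P Q x y x' y' ((y - y') / (x - x')) (((y - y') / (x - x')) ^ 2 - x - x') h h' hx
        (by field_simp) rfl
      set l := (y - y') / (x - x') with hl
      have hl2 : l * (x - x') = y - y' := by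
        rw [hl]
        field_simp
      have b2 := k9 _ _ (s ^ 2 * x) (s ^ 3 * y) (s ^ 2 * x') (s ^ 3 * y') (s * l)
        ((s * l) ^ 2 - s ^ 2 * x - s ^ 2 * x') hP hQ (by
          intro h3
          exact hx (mul_left_cancel₀ (pow_ne_zero 2 hs) h3)) (by
          calc s * l * (s ^ 2 * x - s ^ 2 * x') = s ^ 3 * (l * (x - x')) := by ring
            _ = s ^ 3 * (y - y') := by rw [hl2]
            _ = _ := by ring) rfl
      have b3 := hφ _ _ _ b1
      refine k4 _ _ _ _ b3 ?_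
      have c1 : s ^ 2 * (l ^ 2 - x - x') = (s * l) ^ 2 - s ^ 2 * x - s ^ 2 * x' := by ring
      have c2 : s ^ 3 * (l * (x - (l ^ 2 - x - x')) - y) =
          s * l * (s ^ 2 * x - ((s * l) ^ 2 - s ^ 2 * x - s ^ 2 * x')) - s ^ 3 * y := by ring
      rw [c1, c2]
      exact b2
  have hinj : Function.Injective φ := by
    intro P Q hPQ
    rcases g1 P with h | ⟨x, y, h⟩
    · rcases g1 Q with h' | ⟨x', y', h'⟩
      · rw [h, h']
      · have a1 := hφ Q x' y' h'
        rw [← hPQ, h, hz] at a1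
        exact absurd rfl (k2 _ _ _ a1).1
    · have a1 := hφ P x y h
      rcases g1 Q with h' | ⟨x', y', h'⟩
      · rw [hPQ, h', hz] at a1
        exact absurd rfl (k2 _ _ _ a1).1
      · have a2 := hφ Q x' y' h'
        rw [← hPQ] at a2
        obtain ⟨e1, e2⟩ := k5 _ _ _ _ _ a1 a2
        have e3 := mul_left_cancel₀ (pow_ne_zero 2 hs) e1
        have e4 := mul_left_cancel₀ (pow_ne_zero 3 hs) e2
        rw [← e3, ← e4] at h'
        exact g4 _ _ _ _ h h'
  have hsurj : Function.Surjective φ := by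
    intro Q
    rcases k1 Q with h | ⟨x, y, h⟩
    · exact ⟨0, by rw [hz, h]⟩
    · have h3 := (k2 Q x y h).2
      obtain ⟨P, hP⟩ := g3 (x / s ^ 2) (y / s ^ 3) (by
        field_simp
        rw [h3]
        ring)
      refine ⟨P, ?_⟩
      have a1 := hφ P _ _ hP
      have c1 : s ^ 2 * (x / s ^ 2) = x := by field_simp
      have c2 : s ^ 3 * (y / s ^ 3) = y := by field_simp
      rw [c1, c2] at a1
      exact k4 _ _ _ _ a1 h
  exact ⟨AddEquiv.ofBijective (⟨⟨φ, hz⟩, hadd⟩ : Pt A B →+ Pt (A * s ^ 4) (B * s ^ 6)) ⟨hinj, hsurj⟩⟩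

theorem tRks (hG : R.S_Grp) (A B A' B' s : ℤ[X]) (hs : s ≠ 0) (hd : 4 * A ^ 3 + 27 * B ^ 2 ≠ 0)
    (hA : A * s ^ 4 = A') (hB : B * s ^ 6 = B') : rk A B = rk A' B' := by
  have hsz : zr s ≠ 0 := fun h => hs (zr_inj (by rw [h, zr_zero]))
  have hdz : 4 * zr A ^ 3 + 27 * zr B ^ 2 ≠ 0 := by
    intro h
    apply hd
    apply zr_inj
    rw [zr_zero, ← h]
    have h4 : (4 : ℤ[X]) = C 4 := rfl
    have h27 : (27 : ℤ[X]) = C 27 := rfl
    have hadd : ∀ f g : ℤ[X], zr (f + g) = zr f + zr g := by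
      intro f g
      unfold zr
      rw [Polynomial.map_add, map_add]
    rw [hadd, zr_mul, zr_mul, zr_pow, zr_pow, h4, h27, zr_C, zr_C]
    push_cast
    simp
  obtain ⟨e⟩ := Rks_iso hG (RatFunc ℚ) (zr A) (zr B) (zr s) (by norm_num) hdz hsz
  have h1 : zr A * zr s ^ 4 = zr A' := by rw [← zr_pow, ← zr_mul, hA]
  have h2 : zr B * zr s ^ 6 = zr B' := by rw [← zr_pow, ← zr_mul, hB]
  rw [h1, h2] at e
  exact e.toIntLinearEquiv.finrank_eq

end Pool.Agent.Lib.NagA
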