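import Pool.Agent.Lib.MP_60fb2a_nt.Fin
import Pool.Agent.Lib.MP_60fb2a_nt.G.Red
import Pool.Agent.Lib.MP_60fb2a_nt.G.Bgc
import Pool.Agent.Lib.MP_60fb2a_nt.G.Rks

/-!
MP_60fb2a_nt: the final statements for all non-split quadratic twists of constant curves.
-/

set_option autoImplicit false

namespace Pool.Agent.Lib.NagA

open Polynomial Finset Classical

/-- natural averages -/
def ClsA : Prop := ∀ A B : ℤ[X], 4 * A ^ 3 + 27 * B ^ 2 ≠ 0 → ConstTwist A B → ¬ Split A B →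
  ∀ ε δ : ℝ, 0 < ε → 0 < δ → δ < 1 → AlmostAll (fun d =>
    ∀ X : ℝ, Real.log |(d : ℝ)| ^ 5 ≤ X → X ≤ Real.exp (|(d : ℝ)| ^ (1 - δ)) →
      |NS (twA d A) (twB d B) X - rk (twA d A) (twB d B)| ≤ ε)

/-- logarithmic averages -/
def ClsL : Prop := ∀ A B : ℤ[X], 4 * A ^ 3 + 27 * B ^ 2 ≠ 0 → ConstTwist A B → ¬ Split A B →
  ∀ ε δ : ℝ, 0 < ε → 0 < δ → δ < 1 → AlmostAll (fun d =>
    ∀ X : ℝ, |(d : ℝ)| ≤ X → X ≤ Real.exp (Real.exp (|(d : ℝ)| ^ (1 - δ))) →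
      |NL (twA d A) (twB d B) X - rk (twA d A) (twB d B)| ≤ ε)

/-- mean square -/
def ClsM : Prop := ∀ A B : ℤ[X], 4 * A ^ 3 + 27 * B ^ 2 ≠ 0 → ConstTwist A B → ¬ Split A B →
  ∃ K : ℝ, ∀ S : Finset ℤ, (∀ d ∈ S, Squarefree d) → ∃ X₀ : ℝ, ∀ X : ℝ, X₀ ≤ X →
    ∑ d ∈ S, (NS (twA d A) (twB d B) X - rk (twA d A) (twB d B)) ^ 2 ≤ K

theorem Cls_bd (h2 : BddStmt) (A B : ℤ[X]) (hd : 4 * A ^ 3 + 27 * B ^ 2 ≠ 0) (hc : ConstTwist A B)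
    (hs : ¬ Split A B) : ∃ K : ℝ, ∀ p : ℕ, p.Prime → |Av A B p| ≤ K := by
  obtain ⟨s, D, a, b, hs0, hA, hB, -, hD⟩ := tRed A B hd hc hs
  refine tBgc A B s hs0 ?_
  rw [hA, hB]
  exact h2 a b D hD

theorem Cls_rk (h4 : RankStmt) (hG : R.S_Grp) (A B : ℤ[X]) (hd : 4 * A ^ 3 + 27 * B ^ 2 ≠ 0)
    (hc : ConstTwist A B) (hs : ¬ Split A B) : {d : ℤ | Squarefree d ∧ rk (twA d A) (twB d B) ≠ 0}.Finite := by
  obtain ⟨s, D, a, b, hs0, hA, hB, hab, hD⟩ := tRed A B hd hc hs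
  refine (h4 a b D hab hD).subset ?_
  rintro d ⟨hd1, hd2⟩
  refine ⟨hd1, ?_⟩
  have hd0 : d ≠ 0 := hd1.ne_zero
  have hdis : 4 * (twA d A) ^ 3 + 27 * (twB d B) ^ 2 ≠ 0 := by
    have h1 : 4 * (twA d A) ^ 3 + 27 * (twB d B) ^ 2 = C d ^ 6 * (4 * A ^ 3 + 27 * B ^ 2) := by
      unfold twA twB
      rw [map_pow, map_pow]
      ring
    rw [h1]
    exact mul_ne_zero (pow_ne_zero _ (by simpa using hd0)) hd
  have h1 : rk (twA d A) (twB d B) = rk (twA d (C a * D ^ 2)) (twB d (C b * D ^ 3)) := by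
    refine tRks hG _ _ _ _ s hs0 hdis ?_ ?_
    · unfold twA
      rw [mul_assoc, hA]
    · unfold twB
      rw [mul_assoc, hB]
  rw [← h1]
  exact hd2

theorem tClsA (h1 : GenStmt) (h2 : BddStmt) (h4 : RankStmt) (hG : R.S_Grp) : ClsA := by
  intro A B hd hc hs ε δ hε hδ hδ1
  obtain ⟨K, hK⟩ := Cls_bd h2 A B hd hc hs
  have hr := Cls_rk h4 hG A B hd hc hs
  have a2 : AlmostAll (fun d => rk (twA d A) (twB d B) = 0) := AlmostAll.of_finite hr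
  refine (a2.and ((h1 A B K hK).1 ε δ hε hδ hδ1)).mono ?_
  rintro d ⟨hd2, hd3, -⟩ X hX1 hX2
  rw [hd2]
  simpa using hd3 X hX1 hX2

theorem tClsL (h1 : GenStmt) (h2 : BddStmt) (h4 : RankStmt) (hG : R.S_Grp) : ClsL := by
  intro A B hd hc hs ε δ hε hδ hδ1
  obtain ⟨K, hK⟩ := Cls_bd h2 A B hd hc hs
  have hr := Cls_rk h4 hG A B hd hc hs
  have a2 : AlmostAll (fun d => rk (twA d A) (twB d B) = 0) := AlmostAll.of_finite hr
  refine (a2.and ((h1 A B K hK).1 ε δ hε hδ hδ1)).mono ?_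
  rintro d ⟨hd2, -, hd3⟩ X hX1 hX2
  rw [hd2]
  simpa using hd3 X hX1 hX2

theorem tClsM (h1 : GenStmt) (h2 : BddStmt) (h4 : RankStmt) (hG : R.S_Grp) : ClsM := by
  intro A B hd hc hs
  obtain ⟨K, hK⟩ := Cls_bd h2 A B hd hc hs
  have hr := Cls_rk h4 hG A B hd hc hs
  have g2 := (h1 A B K hK).2
  set r : ℤ → ℝ := fun d => (rk (twA d A) (twB d B) : ℝ) with hrdef
  refine ⟨2 * (K ^ 2 + 1) + 2 * ∑ d ∈ hr.toFinset, r d ^ 2, fun S hS => ?_⟩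
  obtain ⟨X₀, hX₀⟩ := g2 S hS 1 one_pos
  refine ⟨X₀, fun X hX => ?_⟩
  have h5 := hX₀ X hX
  have h6 : ∑ d ∈ S, r d ^ 2 ≤ ∑ d ∈ hr.toFinset, r d ^ 2 := by
    have h7 : ∑ d ∈ S, r d ^ 2 = ∑ d ∈ S.filter (fun d => r d ≠ 0), r d ^ 2 := by
      symm
      apply Finset.sum_filter_of_ne
      intro d _ hd hd0
      apply hd
      rw [hd0]
      ring
    rw [h7]
    apply Finset.sum_le_sum_of_subset_of_nonneg
    · intro d hd
      rw [Finset.mem_filter] at hd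
      rw [Set.Finite.mem_toFinset]
      refine ⟨hS d hd.1, fun h8 => hd.2 ?_⟩
      simp only [hrdef]
      rw [h8]
      simp
    · intro d _ _
      positivity
  calc ∑ d ∈ S, (NS (twA d A) (twB d B) X - r d) ^ 2
      ≤ ∑ d ∈ S, (2 * NS (twA d A) (twB d B) X ^ 2 + 2 * r d ^ 2) := by
        apply Finset.sum_le_sum
        intro d _
        nlinarith [sq_nonneg (NS (twA d A) (twB d B) X + r d)]
    _ = 2 * ∑ d ∈ S, NS (twA d A) (twB d B) X ^ 2 + 2 * ∑ d ∈ S, r d ^ 2 := by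
        rw [Finset.sum_add_distrib, Finset.mul_sum, Finset.mul_sum]
    _ ≤ 2 * (K ^ 2 + 1) + 2 * ∑ d ∈ hr.toFinset, r d ^ 2 := by linarith

end Pool.Agent.Lib.NagA
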