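import Pool.Agent.Lib.MP_60fb2a_nt.R.Spec
import Pool.Agent.Lib.MP_60fb2a_nt.G.Red

/-!
MP_60fb2a_nt: if the group of points over `kk(T)` is finitely generated (the theorem of Lang and Néron), then only
finitely many squarefree `d` give a twist of positive rank over `ℚ(T)`.
-/

set_option autoImplicit false

namespace Pool.Agent.Lib.NagA

open Polynomial Finset Classical R

/-- eigenvectors with different characters are independent -/
theorem Lne_ind {M ι : Type} [AddCommGroup M] (P : ι → M) (h0 : ∀ i, ∀ n : ℤ, n • P i = 0 → n = 0)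
    (hs : ∀ i j, i ≠ j → ∃ s : M →+ M, (∀ l, s (P l) = P l ∨ s (P l) = -P l) ∧
      ((s (P i) = P i ∧ s (P j) = -P j) ∨ (s (P i) = -P i ∧ s (P j) = P j))) (S : Finset ι) :
    ∀ c : ι → ℤ, ∑ l ∈ S, c l • P l = 0 → ∀ l ∈ S, c l = 0 := by
  induction S using Finset.induction_on with
  | empty => intro c _ l hl; simp at hl
  | insert j S hj ih =>
    intro c hc
    have key : ∀ i ∈ S, c i = 0 := by
      intro i hi
      have hij : i ≠ j := fun h => hj (h ▸ hi)
      obtain ⟨s, hs1, hs2⟩ := hs i j hij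
      have hε : ∀ l, ∃ ε : ℤ, (ε = 1 ∨ ε = -1) ∧ s (P l) = ε • P l := by
        intro l
        rcases hs1 l with h | h
        · exact ⟨1, Or.inl rfl, by rw [h, one_smul]⟩
        · exact ⟨-1, Or.inr rfl, by rw [h, neg_smul, one_smul]⟩
      choose ε hε1 hε2 using hε
      have hne : ε i ≠ ε j := by
        intro h
        have hPi : P i + P i ≠ 0 := by
          intro h3
          have := h0 i 2 (by rw [two_smul]; exact h3)
          norm_num at this
        have hPj : P j + P j ≠ 0 := by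
          intro h3
          have := h0 j 2 (by rw [two_smul]; exact h3)
          norm_num at this
        have e1 := hε2 i
        have e2 := hε2 j
        rcases hs2 with ⟨h3, h4⟩ | ⟨h3, h4⟩
        · rw [h3] at e1
          rw [h4] at e2
          rcases hε1 i with h5 | h5
          · rw [← h, h5, one_smul] at e2
            apply hPj
            nth_rewrite 1 [← e2]
            exact neg_add_cancel _
          · rw [h5, neg_smul, one_smul] at e1
            apply hPi
            nth_rewrite 1 [e1]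
            exact neg_add_cancel _
        · rw [h3] at e1
          rw [h4] at e2
          rcases hε1 i with h5 | h5
          · rw [h5, one_smul] at e1
            apply hPi
            nth_rewrite 1 [← e1]
            exact neg_add_cancel _
          · rw [← h, h5, neg_smul, one_smul] at e2
            apply hPj
            nth_rewrite 1 [e2]
            exact neg_add_cancel _
      have h1 : ∑ l ∈ insert j S, (ε l * c l) • P l = 0 := by
        have h2 := congrArg s hc
        rw [map_sum, map_zero] at h2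
        rw [← h2]
        refine Finset.sum_congr rfl fun l _ => ?_
        rw [map_zsmul, hε2, smul_smul, mul_comm]
      have h2 : ∑ l ∈ S, ((ε l - ε j) * c l) • P l = 0 := by
        rw [Finset.sum_insert hj] at h1 hc
        have h3 : ∑ l ∈ S, ((ε l - ε j) * c l) • P l = (∑ l ∈ S, (ε l * c l) • P l) - ε j • ∑ l ∈ S, c l • P l := by
          rw [Finset.smul_sum, ← Finset.sum_sub_distrib]
          refine Finset.sum_congr rfl fun l _ => ?_
          rw [smul_smul, ← sub_smul]
          congr 1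
          ring
        have h4 : ∑ l ∈ S, c l • P l = -(c j • P j) := by
          rw [eq_neg_iff_add_eq_zero, add_comm]
          exact hc
        have h5 : ∑ l ∈ S, (ε l * c l) • P l = -((ε j * c j) • P j) := by
          rw [eq_neg_iff_add_eq_zero, add_comm]
          exact h1
        rw [h3, h4, h5, smul_neg, smul_smul]
        simp
      have h3 := ih _ h2 i hi
      rcases mul_eq_zero.1 h3 with h | h
      · exact absurd (sub_eq_zero.1 h) hne
      · exact h
    intro l hl
    rcases Finset.mem_insert.1 hl with h | h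
    · rw [h]
      apply h0 j
      rw [Finset.sum_insert hj] at hc
      have h1 : ∑ l ∈ S, c l • P l = 0 := Finset.sum_eq_zero fun l hl => by rw [key l hl, zero_smul]
      rw [h1, add_zero] at hc
      exact hc
    · exact key l h

/-- a field embedding followed by a scaling acts on the points -/
theorem Lne_map (hG : R.S_Grp) (K F : Type) [Field K] [Field F] (i : K →+* F) (A B : K) (A' B' s : F)
    (h2K : (2 : K) ≠ 0) (h2 : (2 : F) ≠ 0) (hd : 4 * A ^ 3 + 27 * B ^ 2 ≠ 0) (hs : s ≠ 0)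
    (hA : A' = i A * s ^ 4) (hB : B' = i B * s ^ 6) : ∃ g : Pt A B →+ Pt A' B', Function.Injective g ∧
      ∀ (P : Pt A B) (x y : K), IsXY P x y → IsXY (g P) (s ^ 2 * i x) (s ^ 3 * i y) := by
  have hd' : 4 * A' ^ 3 + 27 * B' ^ 2 ≠ 0 := by
    have h4 : i 4 = 4 := map_ofNat i 4
    have h27 : i 27 = 27 := map_ofNat i 27
    have : 4 * A' ^ 3 + 27 * B' ^ 2 = s ^ 12 * i (4 * A ^ 3 + 27 * B ^ 2) := by
      rw [hA, hB, map_add, map_mul, map_mul, map_pow, map_pow, h4, h27]
      ring
    rw [this]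
    exact mul_ne_zero (pow_ne_zero _ hs) ((map_ne_zero i).2 hd)
  obtain ⟨g1, g2, g3, g4, g5, g6, g7, g8, g9⟩ := hG K A B h2K hd
  obtain ⟨k1, k2, k3, k4, k5, k6, k7, k8, k9⟩ := hG F A' B' h2 hd'
  have hex : ∀ P : Pt A B, ∃ Q : Pt A' B', (P = 0 → Q = 0) ∧
      ∀ x y : K, IsXY P x y → IsXY Q (s ^ 2 * i x) (s ^ 3 * i y) := by
    intro P
    rcases g1 P with h | ⟨x, y, h⟩
    · refine ⟨0, fun _ => rfl, fun x y hxy => ?_⟩
      exact absurd h (g2 P x y hxy).1
    · obtain ⟨Q, hQ⟩ := k3 (s ^ 2 * i x) (s ^ 3 * i y) (by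
        have h3 := congrArg i (g2 P x y h).2
        rw [map_pow, map_add, map_add, map_mul, map_pow] at h3
        calc (s ^ 3 * i y) ^ 2 = s ^ 6 * i y ^ 2 := by ring
          _ = s ^ 6 * (i x ^ 3 + i A * i x + i B) := by rw [h3]
          _ = _ := by rw [hA, hB]; ring)
      refine ⟨Q, fun h0 => absurd h0 (g2 P x y h).1, fun x' y' h' => ?_⟩
      obtain ⟨e1, e2⟩ := g5 P x y x' y' h h'
      rw [← e1, ← e2]
      exact hQ
  choose φ hφ0 hφ using hex
  have hz : φ 0 = 0 := hφ0 0 rfl
  have hneg : ∀ P : Pt A B, φ (-P) = -φ P := by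
    intro P
    rcases g1 P with h | ⟨x, y, h⟩
    · rw [h, neg_zero, hz, neg_zero]
    · have a1 := hφ (-P) x (-y) (g6 P x y h)
      have a2 := k6 _ _ _ (hφ P x y h)
      refine k4 _ _ _ _ a1 ?_
      have : s ^ 3 * i (-y) = -(s ^ 3 * i y) := by rw [map_neg]; ring
      rw [this]
      exact a2
  have hadd : ∀ P Q : Pt A B, φ (P + Q) = φ P + φ Q := by
    intro P Q
    rcases g1 P with h | ⟨x, y, h⟩
    · rw [h, zero_add, hz, zero_add]
    rcases g1 Q with h' | ⟨x', y', h'⟩
    · rw [h', add_zero, hz, add_zero]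
    have hP := hφ P x y h
    have hQ := hφ Q x' y' h'
    by_cases hx : x = x'
    · have e1 := (g2 P x y h).2
      have e2 := (g2 Q x' y' h').2
      rw [← hx, ← e1] at e2
      rcases sq_eq_sq_iff_eq_or_eq_neg.1 e2 with h3 | h3
      · have hPQ : Q = P := by
          refine g4 Q P x' y' h' ?_
          rw [← hx, h3]
          exact h
        rw [hPQ]
        by_cases hy : y = 0
        · rw [hy] at h hP
          rw [g7 P x h, hz]
          rw [map_zero, mul_zero] at hP
          exact (k7 _ _ hP).symm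
        · obtain ⟨l, hl2⟩ : ∃ l : K, 2 * l * y = 3 * x ^ 2 + A := ⟨(3 * x ^ 2 + A) / (2 * y), by field_simp⟩
          have b1 := g8 P x y l (l ^ 2 - 2 * x) h hy hl2 rfl
          have h2i : i 2 = 2 := map_ofNat i 2
          have h3i : i 3 = 3 := map_ofNat i 3
          have hl3 := congrArg i hl2
          rw [map_mul, map_mul, map_add, map_mul, map_pow, h2i, h3i] at hl3
          have b2 := k8 _ (s ^ 2 * i x) (s ^ 3 * i y) (s * i l) ((s * i l) ^ 2 - 2 * (s ^ 2 * i x)) hP
            (mul_ne_zero (pow_ne_zero _ hs) ((map_ne_zero i).2 hy)) (by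
              calc 2 * (s * i l) * (s ^ 3 * i y) = s ^ 4 * (2 * i l * i y) := by ring
                _ = s ^ 4 * (3 * i x ^ 2 + i A) := by rw [hl3]
                _ = _ := by rw [hA]; ring) rfl
          have b3 := hφ _ _ _ b1
          refine k4 _ _ _ _ b3 ?_
          have c1 : s ^ 2 * i (l ^ 2 - 2 * x) = (s * i l) ^ 2 - 2 * (s ^ 2 * i x) := by
            rw [map_sub, map_mul, map_pow, h2i]
            ring
          have c2 : s ^ 3 * i (l * (x - (l ^ 2 - 2 * x)) - y) =
              s * i l * (s ^ 2 * i x - ((s * i l) ^ 2 - 2 * (s ^ 2 * i x))) - s ^ 3 * i y := by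
            simp only [map_sub, map_mul, map_pow, h2i]
            ring
          rw [c1, c2]
          exact b2
      · have hPQ : Q = -P := by
          refine g4 Q (-P) x' y' h' ?_
          rw [← hx, h3]
          exact g6 P x y h
        rw [hPQ, hneg, add_neg_cancel, add_neg_cancel, hz]
    · have hx' : x - x' ≠ 0 := sub_ne_zero.2 hx
      obtain ⟨l, hl2⟩ : ∃ l : K, l * (x - x') = y - y' := ⟨(y - y') / (x - x'), by field_simp⟩
      have b1 := g9 P Q x y x' y' l (l ^ 2 - x - x') h h' hx hl2 rfl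
      have hl3 := congrArg i hl2
      rw [map_mul, map_sub, map_sub] at hl3
      have b2 := k9 _ _ (s ^ 2 * i x) (s ^ 3 * i y) (s ^ 2 * i x') (s ^ 3 * i y') (s * i l)
        ((s * i l) ^ 2 - s ^ 2 * i x - s ^ 2 * i x') hP hQ (by
          intro h3
          exact hx (i.injective (mul_left_cancel₀ (pow_ne_zero 2 hs) h3))) (by
          calc s * i l * (s ^ 2 * i x - s ^ 2 * i x') = s ^ 3 * (i l * (i x - i x')) := by ring
            _ = s ^ 3 * (i y - i y') := by rw [hl3]
            _ = _ := by ring) rfl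
      have b3 := hφ _ _ _ b1
      refine k4 _ _ _ _ b3 ?_
      have c1 : s ^ 2 * i (l ^ 2 - x - x') = (s * i l) ^ 2 - s ^ 2 * i x - s ^ 2 * i x' := by
        simp only [map_sub, map_pow]
        ring
      have c2 : s ^ 3 * i (l * (x - (l ^ 2 - x - x')) - y) =
          s * i l * (s ^ 2 * i x - ((s * i l) ^ 2 - s ^ 2 * i x - s ^ 2 * i x')) - s ^ 3 * i y := by
        simp only [map_sub, map_mul, map_pow]
        ring
      rw [c1, c2]
      exact b2
  have hinj : Function.Injective φ := by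
    intro P Q hPQ
    rcases g1 P with h | ⟨x, y, h⟩
    · rcases g1 Q with h' | ⟨x', y', h'⟩
      · rw [h, h']
      · have a1 := hφ Q x' y' h'
        rw [← hPQ, h, hz] at a1
        exact absurd rfl (k2 _ _ _ a1).1
    · have a1 := hφ P x y h
      rcases g1 Q with h' | ⟨x', y', h'⟩
      · rw [hPQ, h', hz] at a1
        exact absurd rfl (k2 _ _ _ a1).1
      · have a2 := hφ Q x' y' h'
        rw [← hPQ] at a2
        obtain ⟨e1, e2⟩ := k5 _ _ _ _ _ a1 a2
        have e3 := i.injective (mul_left_cancel₀ (pow_ne_zero 2 hs) e1)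
        have e4 := i.injective (mul_left_cancel₀ (pow_ne_zero 3 hs) e2)
        rw [← e3, ← e4] at h'
        exact g4 _ _ _ _ h h'
  exact ⟨⟨⟨φ, hz⟩, hadd⟩, hinj, hφ⟩

theorem Lne_i : ∃ i : RatFunc ℚ →+* FF, ∀ p : ℚ[X],
    i (algebraMap ℚ[X] (RatFunc ℚ) p) = algebraMap kk[X] FF (p.map (algebraMap ℚ kk)) := by
  have hφ : nonZeroDivisors ℚ[X] ≤
      (nonZeroDivisors kk[X]).comap (Polynomial.mapRingHom (algebraMap ℚ kk)) := by
    intro p hp
    rw [Submonoid.mem_comap, mem_nonZeroDivisors_iff_ne_zero]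
    rw [mem_nonZeroDivisors_iff_ne_zero] at hp
    intro h
    apply hp
    exact (Polynomial.map_injective _ (algebraMap ℚ kk).injective) (by simpa using h)
  refine ⟨RatFunc.mapRingHom (Polynomial.mapRingHom (algebraMap ℚ kk)) hφ, ?_⟩
  intro p
  have h1 : algebraMap ℚ[X] (RatFunc ℚ) p =
      algebraMap ℚ[X] (RatFunc ℚ) p / algebraMap ℚ[X] (RatFunc ℚ) 1 := by
    rw [map_one, div_one]
  rw [h1]
  have h2 := RatFunc.map_apply_div (Polynomial.mapRingHom (algebraMap ℚ kk)) hφ p 1
  have h3 : RatFunc.mapRingHom (Polynomial.mapRingHom (algebraMap ℚ kk)) hφ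
      (algebraMap ℚ[X] (RatFunc ℚ) p / algebraMap ℚ[X] (RatFunc ℚ) 1) =
      algebraMap kk[X] FF (Polynomial.mapRingHom (algebraMap ℚ kk) p) /
      algebraMap kk[X] FF (Polynomial.mapRingHom (algebraMap ℚ kk) 1) := h2
  rw [h3, map_one, map_one, div_one]
  rfl

theorem Lne_iz (i : RatFunc ℚ →+* FF) (hi : ∀ p : ℚ[X],
    i (algebraMap ℚ[X] (RatFunc ℚ) p) = algebraMap kk[X] FF (p.map (algebraMap ℚ kk))) (f : ℤ[X]) :
    i (zr f) = dd f := by
  unfold zr dd Dd
  rw [hi, Polynomial.map_map]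
  have h1 : (algebraMap ℚ kk).comp (Int.castRingHom ℚ) = Int.castRingHom kk :=
    RingHom.ext_int _ _
  rw [h1]

theorem Lne_dC (n : ℤ) (f : ℤ[X]) : dd (C n * f) = RatFunc.C (n : kk) * dd f := by
  unfold dd Dd
  rw [Polynomial.map_mul, Polynomial.map_C, map_mul, RatFunc.algebraMap_C]
  rfl

theorem tLne (hG : R.S_Grp) (hM : R.S_Map) (hS : R.S_Sig) (hGal : R.S_Gal) (A B : ℤ[X])
    (hd : 4 * A ^ 3 + 27 * B ^ 2 ≠ 0) (hfin : Module.Finite ℤ (Pt (dd A) (dd B))) :
    {d : ℤ | Squarefree d ∧ rk (twA d A) (twB d B) ≠ 0}.Finite := by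
  have hcz : CharZero FF := charZero_of_injective_ringHom (RatFunc.C : kk →+* FF).injective
  obtain ⟨i, hi⟩ := Lne_i
  have hadd : ∀ f g : ℤ[X], zr (f + g) = zr f + zr g := by
    intro f g
    unfold zr
    rw [Polynomial.map_add, map_add]
  have hdz : ∀ A B : ℤ[X], 4 * A ^ 3 + 27 * B ^ 2 ≠ 0 → 4 * zr A ^ 3 + 27 * zr B ^ 2 ≠ 0 := by
    intro A B hd h
    apply hd
    apply zr_inj
    rw [zr_zero, ← h]
    have h4 : (4 : ℤ[X]) = C 4 := rfl
    have h27 : (27 : ℤ[X]) = C 27 := rfl
    rw [hadd, zr_mul, zr_mul, zr_pow, zr_pow, h4, h27, zr_C, zr_C]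
    push_cast
    simp
  have hdd : 4 * dd A ^ 3 + 27 * dd B ^ 2 ≠ 0 := by
    intro h
    apply hdz A B hd
    apply i.injective
    rw [map_zero, map_add, map_mul, map_mul, map_pow, map_pow, map_ofNat, map_ofNat, Lne_iz i hi, Lne_iz i hi]
    exact h
  -- the points of the twists
  have hex : ∀ d : {d : ℤ | Squarefree d ∧ rk (twA d A) (twB d B) ≠ 0}, ∃ (w : kk) (P : Pt (dd A) (dd B)),
      w ^ 2 = ((d : ℤ) : kk) ∧ (∀ n : ℤ, n • P = 0 → n = 0) ∧ ∀ (σ : kk ≃ₐ[ℚ] kk) (s : Pt (dd A) (dd B) →+ Pt (dd A) (dd B)),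
        (∀ (Q : Pt (dd A) (dd B)) (x y : FF), IsXY Q x y → IsXY (s Q) (SS σ x) (SS σ y)) →
        (σ w = w → s P = P) ∧ (σ w = -w → s P = -P) := by
    rintro ⟨d, hd1, hd2⟩
    obtain ⟨w, hw⟩ := IsAlgClosed.exists_pow_nat_eq ((d : ℤ) : kk) (n := 2) (by norm_num)
    have hd0 : d ≠ 0 := hd1.ne_zero
    have hdk : (d : kk) ≠ 0 := by exact_mod_cast hd0
    have hw0 : w ≠ 0 := by
      intro h
      rw [h] at hw
      exact hdk (by rw [← hw]; ring)
    set s : FF := RatFunc.C w⁻¹ with hs
    have hs0 : s ≠ 0 := (map_ne_zero_iff _ RatFunc.C_injective).2 (inv_ne_zero hw0)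
    have hds : (RatFunc.C ((d : ℤ) : kk) : FF) * s ^ 2 = 1 := by
      rw [hs, ← map_pow, ← map_mul, ← hw]
      have : w ^ 2 * w⁻¹ ^ 2 = 1 := by
        field_simp
      rw [this, map_one]
    have hdis : 4 * (twA d A) ^ 3 + 27 * (twB d B) ^ 2 ≠ 0 := by
      have h1 : 4 * (twA d A) ^ 3 + 27 * (twB d B) ^ 2 = C d ^ 6 * (4 * A ^ 3 + 27 * B ^ 2) := by
        unfold twA twB
        rw [map_pow, map_pow]
        ring
      rw [h1]
      exact mul_ne_zero (pow_ne_zero _ (by simpa using hd0)) hd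
    have eA : dd A = i (zr (twA d A)) * s ^ 4 := by
      rw [Lne_iz i hi]
      unfold twA
      rw [Lne_dC]
      push_cast
      rw [map_pow]
      calc dd A = (RatFunc.C ((d : ℤ) : kk) * s ^ 2) ^ 2 * dd A := by rw [hds]; ring
        _ = _ := by ring
    have eB : dd B = i (zr (twB d B)) * s ^ 6 := by
      rw [Lne_iz i hi]
      unfold twB
      rw [Lne_dC]
      push_cast
      rw [map_pow]
      calc dd B = (RatFunc.C ((d : ℤ) : kk) * s ^ 2) ^ 3 * dd B := by rw [hds]; ring
        _ = _ := by ring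
    obtain ⟨g, hg1, hg2⟩ := Lne_map hG (RatFunc ℚ) FF i (zr (twA d A)) (zr (twB d B)) (dd A) (dd B) s
      two_ne_zero two_ne_zero (hdz _ _ hdis) hs0 eA eB
    obtain ⟨q1, q2, -, q4, -, q6, -, -, -⟩ := hG (RatFunc ℚ) (zr (twA d A)) (zr (twB d B)) two_ne_zero (hdz _ _ hdis)
    obtain ⟨k1, k2, -, k4, k5, k6, -, -, -⟩ := hG FF (dd A) (dd B) two_ne_zero hdd
    obtain ⟨P0, hP0⟩ : ∃ P0 : Pt (zr (twA d A)) (zr (twB d B)), ∀ n : ℤ, n • P0 = 0 → n = 0 := by
      by_contra hcon
      apply hd2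
      have hrank : Module.rank ℤ (Pt (zr (twA d A)) (zr (twB d B))) = 0 := by
        rw [rank_eq_zero_iff]
        intro Q
        by_contra h
        apply hcon
        refine ⟨Q, fun n hn => ?_⟩
        by_contra hn0
        exact h ⟨n, hn0, hn⟩
      have hfin : Module.finrank ℤ (Pt (zr (twA d A)) (zr (twB d B))) = 0 := by
        unfold Module.finrank
        rw [hrank]
        simp
      exact hfin
    refine ⟨w, g P0, hw, ?_, ?_⟩
    · intro n hn
      apply hP0
      apply hg1
      rw [map_zsmul, hn, map_zero]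
    · intro σ t ht
      rcases q1 P0 with h | ⟨x, y, hxy⟩
      · exfalso
        have := hP0 1 (by rw [h, smul_zero])
        norm_num at this
      · have hgP := hg2 P0 x y hxy
        have htP := ht _ _ _ hgP
        have hix : ∀ z : RatFunc ℚ, SS σ (i z) = i z := (hS σ).2.2.2.2 i hi
        have hsσ : SS σ s = RatFunc.C (σ w)⁻¹ := by
          rw [hs, (hS σ).1]
          congr 1
          exact map_inv₀ σ w
        constructor
        · intro h
          have e1 : SS σ (s ^ 2 * i x) = s ^ 2 * i x := by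
            rw [map_mul, map_pow, hix, hsσ, h]
          have e2 : SS σ (s ^ 3 * i y) = s ^ 3 * i y := by
            rw [map_mul, map_pow, hix, hsσ, h]
          rw [e1, e2] at htP
          exact k4 _ _ _ _ htP hgP
        · intro h
          have hs' : SS σ s = -s := by
            rw [hsσ, h, hs, ← map_neg]
            congr 1
            rw [inv_neg]
          have e1 : SS σ (s ^ 2 * i x) = s ^ 2 * i x := by
            rw [map_mul, map_pow, hix, hs']
            ring
          have e2 : SS σ (s ^ 3 * i y) = -(s ^ 3 * i y) := by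
            rw [map_mul, map_pow, hix, hs']
            ring
          rw [e1, e2] at htP
          exact k4 _ _ _ _ htP (k6 _ _ _ hgP)
  choose w P hw hP hPs using hex
  have hmap : ∀ σ : kk ≃ₐ[ℚ] kk, ∃ s : Pt (dd A) (dd B) →+ Pt (dd A) (dd B),
      ∀ (Q : Pt (dd A) (dd B)) (x y : FF), IsXY Q x y → IsXY (s Q) (SS σ x) (SS σ y) := by
    intro σ
    exact hM FF (dd A) (dd B) (SS σ) ((hS σ).2.2.1 A) ((hS σ).2.2.1 B)
  have hlin : LinearIndependent ℤ P := by
    rw [linearIndependent_iff']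
    intro S c hc
    refine Lne_ind P hP ?_ S c hc
    intro a b hab
    have hne : (a : ℤ) ≠ (b : ℤ) := fun h => hab (Subtype.ext h)
    obtain ⟨σ, hσ⟩ := hGal a b (w a) (w b) a.2.1 b.2.1 hne (hw a) (hw b)
    obtain ⟨s, hs⟩ := hmap σ
    refine ⟨s, ?_, ?_⟩
    · intro l
      have h1 : (σ (w l)) ^ 2 = (w l) ^ 2 := by
        rw [← map_pow, hw l]
        exact map_intCast σ _
      rcases sq_eq_sq_iff_eq_or_eq_neg.1 h1 with h | h
      · exact Or.inl ((hPs l σ s hs).1 h)
      · exact Or.inr ((hPs l σ s hs).2 h)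
    · rcases hσ with ⟨h1, h2⟩ | ⟨h1, h2⟩
      · exact Or.inl ⟨(hPs a σ s hs).1 h1, (hPs b σ s hs).2 h2⟩
      · exact Or.inr ⟨(hPs a σ s hs).2 h1, (hPs b σ s hs).1 h2⟩
  have hN : IsNoetherian ℤ (Pt (dd A) (dd B)) := isNoetherian_of_isNoetherianRing_of_finite ℤ _
  have hfi : Finite {d : ℤ | Squarefree d ∧ rk (twA d A) (twB d B) ≠ 0} := hlin.finite_of_isNoetherian
  exact Set.toFinite _

end Pool.Agent.Lib.NagA
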