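import Pool.Agent.Lib.MP_60fb2a_nt.Defs

/-!
MP_60fb2a_nt: the two hypotheses of the theorem on general curves. Both are known theorems for every non-split curve:
bounded fibral averages (Deligne) and finite generation over the function field of the algebraic closure (Lang and
Néron).
-/

set_option autoImplicit false

namespace Pool.Agent.Lib.NagA

open Polynomial Finset Classical

/-- the curve `y ^ 2 = x ^ 3 + A(T) x + B(T)` over the rational functions over the algebraic closure of `ℚ` -/
noncomputable def crvK (A B : ℤ[X]) : WeierstrassCurve (RatFunc (AlgebraicClosure ℚ)) :=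
  ⟨0, 0, 0, algebraMap (Polynomial (AlgebraicClosure ℚ)) (RatFunc (AlgebraicClosure ℚ))
      (A.map (Int.castRingHom (AlgebraicClosure ℚ))),
    algebraMap (Polynomial (AlgebraicClosure ℚ)) (RatFunc (AlgebraicClosure ℚ))
      (B.map (Int.castRingHom (AlgebraicClosure ℚ)))⟩

/-- the group of points over the rational functions over the algebraic closure of `ℚ` is finitely generated -/
def FinGen (A B : ℤ[X]) : Prop := Module.Finite ℤ (crvK A B).toAffine.Point

/-- the fibral averages `A_p` are bounded -/
def BddAv (A B : ℤ[X]) : Prop := ∃ K : ℝ, ∀ p : ℕ, p.Prime → |Av A B p| ≤ K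

end Pool.Agent.Lib.NagA
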