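import Pool.Agent.Lib.MP_60fb2a_nt.Defs

/-!
MP_60fb2a_nt: the class of curves of the final theorems, the non-split quadratic twists over `ℚ(T)` of constant
curves.
-/

set_option autoImplicit false

namespace Pool.Agent.Lib.NagA

open Polynomial Finset Classical

/-- `E : y^2 = x^3 + A(T) x + B(T)` is isomorphic over `ℚ(T)` to a curve defined over `ℚ` (the condition of the frozen
statement) -/
def Split (A B : ℤ[X]) : Prop := ∃ u : RatFunc ℚ, u ≠ 0 ∧ ∃ a b : ℚ,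
  (crv A B).a₄ = u ^ 4 * algebraMap ℚ (RatFunc ℚ) a ∧ (crv A B).a₆ = u ^ 6 * algebraMap ℚ (RatFunc ℚ) b

/-- `E : y^2 = x^3 + A(T) x + B(T)` is the quadratic twist by some `u ∈ ℚ(T)` of a constant curve
`y^2 = x^3 + a x + b`, `a, b ∈ ℚ`. -/
def ConstTwist (A B : ℤ[X]) : Prop := ∃ (u : RatFunc ℚ) (a b : ℚ),
  (crv A B).a₄ = u ^ 2 * algebraMap ℚ (RatFunc ℚ) a ∧ (crv A B).a₆ = u ^ 3 * algebraMap ℚ (RatFunc ℚ) b

end Pool.Agent.Lib.NagA
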